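import Mathlib

set_option autoImplicit false

/-!
# MP_e3daee_pr: a continuous local martingale which is a non-regular semimartingale in another
filtration (project of helper481)

Answer to Q1: NO.  Let `W` be a Brownian motion and `V` an independent random label which encodes a
random ternary Cantor set: every interval of level `n` which is still alive keeps two of its three
children, the dropped one is uniform and independent of everything else.  `F (V ω)` is the
distribution function of the natural measure (of total mass `1/2`) of the Cantor set.  Put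
`X = W + F(V)`.  The law of `X` on path space is absolutely continuous with respect to Wiener
measure (two independent Cantor measures have a finite overlap with exponential moments), and the
compensator of `F(V)` in the filtration `FX` of `X` is ABSOLUTELY continuous, `∫ θ ds`.  So
`M = X - ∫ θ ds` is an `FX`-martingale, and in the filtration `GW` (which knows `V` from the
beginning) `M = W + (F(V) - ∫ θ ds)` has a drift with a singular part.

Every `S_XXX` below is a piece; prove `theorem t_XXX : (hyps) → S_XXX` (hyps = the pieces which the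
doc string allows you to use, nothing else) in `Pool/Agent/Run7/<you>/RG/XXX.lean`.
-/

namespace H481.RG

open MeasureTheory ProbabilityTheory Set Filter
open scoped NNReal ENNReal Topology

/-! ## the random Cantor set -/

/-- `u (n, k)` is the number of the child which the interval `[k/3^n, (k+1)/3^n]` drops -/
abbrev U := ℕ × ℕ → Fin 3

/-- independent uniform labels -/
noncomputable def PU : Measure U :=
  Measure.infinitePi (fun _ : ℕ × ℕ => (PMF.uniformOfFintype (Fin 3)).toMeasure)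

/-- the interval `[k/3^n, (k+1)/3^n]` is kept up to level `n` -/
def alive (u : U) : ℕ → ℕ → Prop
  | 0, k => k = 0
  | n + 1, k => alive u n (k / 3) ∧ k % 3 ≠ (u (n, k / 3) : ℕ)

open Classical in
/-- the mass of the interval `[k/3^n, (k+1)/3^n]` -/
noncomputable def mass (u : U) (n k : ℕ) : ℝ := if alive u n k then (1 / 2) * (1 / 2) ^ n else 0

/-- `F u` is the distribution function of the Cantor measure of the labels `u` -/
structure IsCdf (F : U → ℝ → ℝ) : Prop where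
  cont : ∀ u, Continuous (F u)
  mono : ∀ u, Monotone (F u)
  left : ∀ u t, t ≤ 0 → F u t = 0
  right : ∀ u t, 1 ≤ t → F u t = 1 / 2
  meas : ∀ t, Measurable fun u => F u t
  incr : ∀ u (n k : ℕ), k < 3 ^ n →
    F u (((k : ℝ) + 1) / 3 ^ n) - F u ((k : ℝ) / 3 ^ n) = mass u n k

/-- CDF. Existence of the distribution functions.
PROOF. Let `S n u j = ∑ k ∈ range j, mass u n k`. Mass is conserved: exactly two of the three
children `3k, 3k+1, 3k+2` of an alive `k` are alive, so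
`mass u (n+1) (3k) + mass u (n+1) (3k+1) + mass u (n+1) (3k+2) = mass u n k`, hence
`S (n+1) u (3j) = S n u j`, and `S n u (3^n) = 1/2`.  Put `c t = max 0 (min t 1)` and
`F u t = ⨆ n, S n u ⌊c t * 3^n⌋₊`; the sequence is nondecreasing in `n` (`3⌊x⌋ ≤ ⌊3x⌋`) and bounded
by `1/2`; on grid points `t = j/3^n` it is eventually constant `= S n u j`, which gives `incr`,
`left`, `right`.  Monotone: clear.  If `j/3^n ≤ t ≤ (j+1)/3^n` then by monotonicity
`S n u j ≤ F u t ≤ S n u (j+1) ≤ S n u j + (1/2)^n`; so `F u` has oscillation at most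
`2 * (1/2)^n` on intervals of length `3^{-n}`: continuous.  Measurable: countable supremum of
functions of finitely many labels. -/
def S_CDF : Prop := ∃ F : U → ℝ → ℝ, IsCdf F

/-- KER. The Cantor measures form a kernel.
PROOF. `κ u` = the Stieltjes measure of `F u` (monotone and continuous), total mass `1/2`;
measurability in `u` from the π-system of the intervals `Ioc s t`
(`Measurable.measure_of_isPiSystem`). -/
def S_KER : Prop := ∀ F : U → ℝ → ℝ, IsCdf F → ∃ κ : Kernel U ℝ, IsFiniteKernel κ ∧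
  ∀ u s t, s ≤ t → κ u (Ioc s t) = ENNReal.ofReal (F u t - F u s)

/-- OVER. Exponential moments of the overlap of two independent Cantor measures.
PROOF. `3^m * mass * mass' = (1/4) (3/4)^m` on the intervals alive in both; let `X_m` be their
number. Claim: for every `m` and every `0 ≤ b ≤ (3/4)^m (1/4 + (3/16) (3/4)^m)` one has
`E exp (b X_m) ≤ 2`. Induction on `m`; `m = 0`: `X_0 = 1`, `exp (7/16) ≤ 2`. Step `m → m+1`: given
the labels of the levels `< m`, `X_{m+1} = ∑` over the common alive `k` of level `m` of `ξ_k`,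
`ξ_k = 3 - #{u (m,k), u' (m,k)}`, independent, `= 2` with probability `1/3` and `= 1` with
probability `2/3`.  So `E exp (b X_{m+1}) = E (E e^{bξ})^{X_m}` and
`E e^{bξ} = (e^{2b} + 2 e^b)/3 = e^b (1 + (e^b-1)/3) ≤ exp (b + (e^b - 1)/3) ≤ exp (4b/3 + b^2/3)`
(`e^b ≤ 1 + b + b^2` for `0 ≤ b ≤ 1`).  With `b ≤ (3/4)^{m+1} (1/4 + (3/16)(3/4)^{m+1})`
(in particular `b ≤ (3/4)^{m+1}/2`) one gets
`4b/3 + b^2/3 ≤ (3/4)^m (1/4 + (3/16)(3/4)^{m+1} + (3/4)^{m+2}/12) ≤
 (3/4)^m (1/4 + (3/16) (3/4)^m)` since `(3/16)(3/4) + (9/16)/12 = 9/64 + 3/64 = 3/16`. -/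
def S_OVER : Prop := ∀ m : ℕ,
  ∫ u, ∫ v, Real.exp (3 ^ m * ∑ k ∈ Finset.range (3 ^ m), mass u m k * mass v m k) ∂PU ∂PU ≤ 2

/-- DVF. A finite dimensional inequality (`γ` = law of `N` independent `N(0,h)` variables).
PROOF. Let `Z x = ∫ u, exp ((∑ a u k x k)/h - (∑ (a u k)^2)/(2h)) ∂π > 0`. Gaussian shift:
`∫ u, ∫ x, f (x + a u) ∂γ ∂π = ∫ f x * Z x ∂γ`; `∫ Z ∂γ = 1`;
`∫ Z^2 ∂γ = ∫ u, ∫ v, exp ((∑ a u k * a v k)/h)`.  Let
`ℓ x = ∑ k, (c g_k(x) x_k - c^2 h g_k(x)^2 / 2)`.  Integrating the coordinates one after the other,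
from the last one to the first one, `∫ e^ℓ ∂γ = 1` (`g_k` depends only on the coordinates `< k`).
With `log t ≤ t - 1`: `ℓ = log (e^ℓ/Z) + log Z ≤ e^ℓ/Z - 1 + Z - 1`; multiply by `Z` and integrate:
`∫ ℓ Z ∂γ ≤ ∫ e^ℓ + ∫ Z^2 - 2 ∫ Z = ∫ Z^2 - 1`.  Finally `∫ ℓ Z ∂γ = ∫∫ ℓ (x + a u)`, and
`∫∫ g_k(x + a u) (x_k + a u k) = ∫∫ g_k(x + a u) a u k` because `g_k (x + a u)` does not depend on
`x_k` and `∫ x_k = 0`. -/
def S_DVF : Prop := ∀ (N : ℕ) (h : ℝ≥0), 0 < h → ∀ (Θ : Type) [MeasurableSpace Θ] (π : Measure Θ)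
  [IsProbabilityMeasure π] (a : Θ → Fin N → ℝ), Measurable a → (∀ u k, |a u k| ≤ 1) →
  ∀ g : Fin N → (Fin N → ℝ) → ℝ, (∀ k, Measurable (g k)) → (∀ k x, 0 ≤ g k x ∧ g k x ≤ 1) →
  (∀ k x y, (∀ j < k, x j = y j) → g k x = g k y) → ∀ c : ℝ,
  c * ∫ u, ∫ x, ∑ k, g k (x + a u) * a u k ∂(Measure.pi fun _ : Fin N => gaussianReal 0 h) ∂π ≤
    c ^ 2 / 2 * h *
      ∫ u, ∫ x, ∑ k, (g k (x + a u)) ^ 2 ∂(Measure.pi fun _ : Fin N => gaussianReal 0 h) ∂π
    + ((∫ u, ∫ v, Real.exp ((∑ k, a u k * a v k) / h) ∂π ∂π) - 1)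

/-! ## the processes -/

/-- a Brownian motion with continuous paths and independent labels -/
structure Setup (Ω : Type) [mΩ : MeasurableSpace Ω] (P : Measure Ω) (W : ℝ≥0 → Ω → ℝ)
    (V : Ω → U) : Prop where
  prob : IsProbabilityMeasure P
  bm : IsPreBrownianReal W P
  cont : ∀ ω, Continuous fun t => W t ω
  zero : ∀ ω, W 0 ω = 0
  measW : ∀ t, Measurable (W t)
  measV : Measurable V
  lawV : P.map V = PU
  indep : IndepFun (fun ω t => W t ω) V P

/-- EX. Existence of the setup. PROOF. Product of a space with a Brownian motion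
(`Pool.Agent.R970.FB.exists_two` in `Pool/Agent/R970/FB/BM.lean`, or `Pool.Agent.Keldysh...`)
and of `(U, PU)`. -/
def S_EX : Prop := ∃ (Ω : Type) (_ : MeasurableSpace Ω) (P : Measure Ω) (W : ℝ≥0 → Ω → ℝ)
  (V : Ω → U), Setup Ω P W V

variable {Ω : Type}

/-- the observed process -/
noncomputable def X (F : U → ℝ → ℝ) (W : ℝ≥0 → Ω → ℝ) (V : Ω → U) (t : ℝ≥0) (ω : Ω) : ℝ :=
  W t ω + F (V ω) (t : ℝ)

/-- the σ-algebra of the observed process up to time `t` -/
noncomputable abbrev FX (F : U → ℝ → ℝ) (W : ℝ≥0 → Ω → ℝ) (V : Ω → U) (t : ℝ≥0) :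
    MeasurableSpace Ω :=
  ⨆ r ≤ t, MeasurableSpace.comap (X F W V r) inferInstance

/-- the σ-algebra of the labels and of the Brownian motion up to time `t` -/
noncomputable abbrev GW (W : ℝ≥0 → Ω → ℝ) (V : Ω → U) (t : ℝ≥0) : MeasurableSpace Ω :=
  MeasurableSpace.comap V inferInstance ⊔ ⨆ r ≤ t, MeasurableSpace.comap (W r) inferInstance

/-- the σ-algebra of the observed process at the times `j/3^m`, `j ≤ k` -/
noncomputable abbrev grid (F : U → ℝ → ℝ) (W : ℝ≥0 → Ω → ℝ) (V : Ω → U) (m k : ℕ) :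
    MeasurableSpace Ω :=
  ⨆ j : ℕ, ⨆ _ : j ≤ k, MeasurableSpace.comap (X F W V ((j : ℝ≥0) / 3 ^ m)) inferInstance

/-- the conclusion of DV -/
def DVB {Ω : Type} [MeasurableSpace Ω] (P : Measure Ω) (F : U → ℝ → ℝ) (W : ℝ≥0 → Ω → ℝ)
    (V : Ω → U) : Prop :=
  ∀ (m : ℕ) (c : ℝ) (B : ℕ → Set Ω), (∀ k < 3 ^ m, MeasurableSet[grid F W V m k] (B k)) →
    c * ∑ k ∈ Finset.range (3 ^ m), ∫ ω in B k, mass (V ω) m k ∂P ≤
      c ^ 2 / 2 * (1 / 3) ^ m * ∑ k ∈ Finset.range (3 ^ m), P.real (B k) + 1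

/-- DV. The drift of a predictable set is bounded by its size (uses DVF and OVER).
PROOF. Let `N = 3^m`, `h = 3^{-m}`, `ξ_k = W ((k+1)/3^m) - W (k/3^m)`; `(ξ_k)` has law
`Measure.pi (gaussianReal 0 h)` (independent increments, `IsPreBrownianReal.hasIndepIncrements`,
`hasLaw_sub`) and is independent of `V`. `X ((k+1)/3^m) - X (k/3^m) = ξ_k + mass (V ω) m k`
(`IsCdf.incr`) and `X 0 = 0`. `B k` is in the σ-algebra of the first `k` increments of `X`, so its
indicator is `g_k (ξ + mass)` with a measurable `g_k` with values in `{0,1}` which depends only on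
the coordinates `< k`.  DVF with `Θ = U`, `π = PU`, `a u k = mass u m k`, and OVER:
`∫∫ exp (3^m ∑ mass mass') - 1 ≤ 1`. -/
def S_DV : Prop := ∀ (Ω : Type) [MeasurableSpace Ω] (P : Measure Ω) (W : ℝ≥0 → Ω → ℝ)
  (V : Ω → U) (F : U → ℝ → ℝ), Setup Ω P W V → IsCdf F → DVB P F W V

/-- the predictable σ-algebra on `Ω × (0,1]` -/
noncomputable abbrev Pred (F : U → ℝ → ℝ) (W : ℝ≥0 → Ω → ℝ) (V : Ω → U) :
    MeasurableSpace (Ω × ℝ) :=
  MeasurableSpace.generateFrom {D | ∃ (m k : ℕ) (B : Set Ω), k < 3 ^ m ∧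
    MeasurableSet[grid F W V m k] B ∧ D = B ×ˢ Ioc ((k : ℝ) / 3 ^ m) (((k : ℝ) + 1) / 3 ^ m)}

/-- AC. On the predictable σ-algebra the Doleans measure of the Cantor measure is absolutely
continuous.
PROOF. Let `λ` and `μ` be the two measures (both finite). For fixed `m` let `𝒜_m` be the sets
`D = ⋃_{k < 3^m} B k × Ioc (k/3^m) ((k+1)/3^m)`, with `B k ∈ grid m k`; `λ D = ∑ ∫_{B k} mass`,
`μ D = 3^{-m} ∑ P (B k)`, so DVB says `c λ D ≤ c^2/2 μ D + 1` for every real `c`.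
`𝒜_m ⊆ 𝒜_{m+1}` (every interval splits into three, `grid m k ≤ grid (m+1) (3k+j)`), and
the union `𝒜`, together with the complements (or: with the sets `D ∪ (Ω × (0,1]ᶜ)`), is an algebra
which generates `Pred`.  If `μ D = 0`, `D ∈ Pred`, choose (`MeasureDense` for `λ + μ`,
`Measure.MeasureDense.of_generateFrom_isSetAlgebra_finite`) `D' ∈ 𝒜` (intersect with `Ω × (0,1]`)
with `(λ+μ) (D Δ D') < ε`; then `μ D' < ε` and `c λ D' ≤ c^2 ε/2 + 1` with `c = ε^{-1/2}` gives
`λ D' ≤ (3/2) √ε`, so `λ D ≤ ε + (3/2) √ε`. -/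
def S_AC : Prop := ∀ (Ω : Type) [MeasurableSpace Ω] (P : Measure Ω) (W : ℝ≥0 → Ω → ℝ)
  (V : Ω → U) (F : U → ℝ → ℝ) (κ : Kernel U ℝ) (hV : Measurable V), Setup Ω P W V → IsCdf F →
  DVB P F W V → IsFiniteKernel κ → (∀ u s t, s ≤ t → κ u (Ioc s t) = ENNReal.ofReal (F u t - F u s)) →
  ∀ D : Set (Ω × ℝ), MeasurableSet[Pred F W V] D →
    (P.prod (volume.restrict (Ioc (0 : ℝ) 1))) D = 0 → (P ⊗ₘ (κ.comap V hV)) D = 0

/-- `θ` is a density of the compensator (on the predictable σ-algebra) -/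
structure IsDens [MeasurableSpace Ω] (P : Measure Ω) (F : U → ℝ → ℝ) (W : ℝ≥0 → Ω → ℝ)
    (V : Ω → U) (θ : Ω → ℝ → ℝ) : Prop where
  nonneg : ∀ ω s, 0 ≤ θ ω s
  meas : Measurable[Pred F W V] (fun p : Ω × ℝ => θ p.1 p.2)
  int : Integrable (fun p : Ω × ℝ => θ p.1 p.2) (P.prod (volume.restrict (Ioc (0 : ℝ) 1)))
  comp : ∀ (m m' j j' : ℕ) (B : Set Ω), (j : ℝ) / 3 ^ m ≤ (j' : ℝ) / 3 ^ m' →
    (j' : ℝ) / 3 ^ m' ≤ 1 → MeasurableSet[Pred F W V]
      (B ×ˢ Ioc ((j : ℝ) / 3 ^ m) ((j' : ℝ) / 3 ^ m')) → MeasurableSet B →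
    ∫ ω in B, (F (V ω) ((j' : ℝ) / 3 ^ m') - F (V ω) ((j : ℝ) / 3 ^ m)) ∂P =
      ∫ ω in B, (∫ s in ((j : ℝ) / 3 ^ m)..((j' : ℝ) / 3 ^ m'), θ ω s) ∂P

/-- RN. Existence of the density (uses KER and AC).
PROOF. `Pred ≤` product σ-algebra. Radon-Nikodym for the restrictions (`Measure.trim`) of
`λ = P ⊗ₘ κ.comap V` (restricted to `Ω × (0,1]`) and `μ = P.prod (volume.restrict (Ioc 0 1))` to
`Pred`: `θ = (dλ/dμ).toReal`, integrable because `λ` is finite.  `comp`:
`λ (B × Ioc s t) = ∫_B (F t - F s)` and `λ D = ∫_D θ dμ` for `D ∈ Pred`, then Fubini. -/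
def S_RN : Prop := ∀ (Ω : Type) [MeasurableSpace Ω] (P : Measure Ω) (W : ℝ≥0 → Ω → ℝ)
  (V : Ω → U) (F : U → ℝ → ℝ), Setup Ω P W V → IsCdf F → DVB P F W V →
  ∃ θ : Ω → ℝ → ℝ, IsDens P F W V θ

/-- ADAP. A predictable `θ` has an adapted integral (also without integrability).
PROOF. For fixed `t` the sets `D` with `D ∩ (Ω × Iic t) ∈ FX t ⊗ Borel` form a σ-algebra, and it
contains the generators of `Pred` (`B ∈ grid m k ≤ FX (k/3^m) ≤ FX t` if `k/3^m < t`, otherwise the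
intersection is empty). So `(ω, s) ↦ 1_{s ≤ t} θ ω s` is `FX t ⊗ Borel` measurable, and Fubini
(`StronglyMeasurable.integral_prod_right'` with the σ-algebra `FX t` on `Ω`). -/
def S_ADAP : Prop := ∀ (Ω : Type) [MeasurableSpace Ω] (P : Measure Ω) (W : ℝ≥0 → Ω → ℝ)
  (V : Ω → U) (F : U → ℝ → ℝ) (θ : Ω → ℝ → ℝ), Setup Ω P W V → IsCdf F →
  Measurable[Pred F W V] (fun p : Ω × ℝ => θ p.1 p.2) →
  ∀ t : ℝ≥0, Measurable[FX F W V t] (fun ω => ∫ s in (0 : ℝ)..(t : ℝ), θ ω s)

/-- COMP. The compensator identity for all times and all events of the past.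
PROOF. (1) For `r < s' = j/3^m` (grid point) and `B ∈ FX r`: `B` is in the σ-algebra generated by
all `grid M (j 3^{M-m})`, `M ≥ m`, because `X` has continuous paths and every time `≤ r` is a limit
of grid points `≤ s'`.  (2) For grid points `s' < t' ≤ 1` the sets `B` with
`B ×ˢ Ioc s' t' ∈ Pred` form a σ-algebra which contains `grid M (j 3^{M-m})` for every `M ≥ m`
(cut `Ioc s' t'` into intervals of level `≥ M`).  So `IsDens.comp` applies to `B ∈ FX r`, all grid
points `r < s' < t' ≤ 1`.  (3) `s' ↓ r`, `t' ↓ t` (or `t' = 1 = t`) by dominated convergence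
(`F` continuous and bounded; `∫_{s'}^{t'} θ` continuous in the limits for a.e. `ω`, dominated by
`∫_0^1 θ`, integrable by `IsDens.int`). The case `r = t` is trivial. -/
def S_COMP : Prop := ∀ (Ω : Type) [MeasurableSpace Ω] (P : Measure Ω) (W : ℝ≥0 → Ω → ℝ)
  (V : Ω → U) (F : U → ℝ → ℝ) (θ : Ω → ℝ → ℝ), Setup Ω P W V → IsCdf F → IsDens P F W V θ →
  ∀ (r t : ℝ≥0) (B : Set Ω), r ≤ t → t ≤ 1 → MeasurableSet[FX F W V r] B →
    ∫ ω in B, (F (V ω) t - F (V ω) r) ∂P = ∫ ω in B, (∫ s in (r : ℝ)..(t : ℝ), θ ω s) ∂P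

/-- MG. `W` and `W² - t` are martingales for `GW`.
PROOF. `W t - W s` is independent of `GW s` (weak Markov property `IsPreBrownianReal.indepFun_shift`
and independence of `V`), centred, with variance `t - s`. -/
def S_MG : Prop := ∀ (Ω : Type) [mΩ : MeasurableSpace Ω] (P : Measure Ω) (W : ℝ≥0 → Ω → ℝ)
  (V : Ω → U), Setup Ω P W V → ∀ G : Filtration ℝ≥0 mΩ, (∀ t, G t = GW W V t) →
  Martingale W G P ∧ Martingale (fun t ω => W t ω ^ 2 - t) G P

/-- the martingale -/
noncomputable def Mt (F : U → ℝ → ℝ) (W : ℝ≥0 → Ω → ℝ) (V : Ω → U) (θ : Ω → ℝ → ℝ)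
    (t : ℝ≥0) (ω : Ω) : ℝ :=
  W t ω + (F (V ω) t - ∫ s in (0 : ℝ)..(min t 1 : ℝ≥0), θ ω s)

/-- MF. `Mt` is an `FX`-martingale (uses ADAP, COMP, MG).
PROOF. Adapted: `Mt t = X t - ∫_0^{min t 1} θ`, ADAP. For `B ∈ FX s ≤ GW s`: `∫_B (W t - W s) = 0`
(MG) and `∫_B (F t - F s - ∫_{min s 1}^{min t 1} θ) = 0` (COMP for `s ≤ 1`, both sides are constant
after time `1`; for `s ≥ 1` trivial). -/
def S_MF : Prop := ∀ (Ω : Type) [mΩ : MeasurableSpace Ω] (P : Measure Ω) (W : ℝ≥0 → Ω → ℝ)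
  (V : Ω → U) (F : U → ℝ → ℝ) (θ : Ω → ℝ → ℝ), Setup Ω P W V → IsCdf F → IsDens P F W V θ →
  ∀ G : Filtration ℝ≥0 mΩ, (∀ t, G t = FX F W V t) → Martingale (Mt F W V θ) G P

/-! ## singularity, completion -/

/-- `a` is absolutely continuous with respect to the nondecreasing function `v` on `[0,T]` -/
def ACwrt (a v : ℝ≥0 → ℝ) (T : ℝ≥0) : Prop :=
  ∀ ε : ℝ, 0 < ε → ∃ δ : ℝ, 0 < δ ∧ ∀ (n : ℕ) (x y : Fin n → ℝ≥0),
    (∀ i, x i ≤ y i ∧ y i ≤ T) →
    (∀ i j, i ≠ j → Disjoint (Ioo (x i) (y i)) (Ioo (x j) (y j))) →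
    ∑ i, (v (y i) - v (x i)) < δ → ∑ i, |a (y i) - a (x i)| < ε

/-- SING. The drift is not absolutely continuous.
PROOF. The `2^n` alive intervals of level `n` have total length `(2/3)^n → 0`, the increments of
`F u` over them add up to `1/2` (`IsCdf.incr`, number of alive intervals: `2^n`), and the integrals
of `|g|` over a union of intervals of total length `→ 0` tend to `0` (absolute continuity of the
integral). So the sums of the absolute increments are `≥ 1/4` for large `n`: `ε = 1/4` fails. -/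
def S_SING : Prop := ∀ (F : U → ℝ → ℝ), IsCdf F → ∀ (u : U) (g : ℝ → ℝ),
  IntegrableOn g (Ioc (0 : ℝ) 1) →
  ¬ ACwrt (fun t => F u t - ∫ s in (0 : ℝ)..(min t 1 : ℝ≥0), g s) (fun t => (t : ℝ)) 1

/-- CPL. Martingales stay martingales when the probability space and the filtration are completed.
`eventuallyMeasurableSpace G (ae P)` is the σ-algebra generated by `G` and the null sets.
PROOF. A function measurable for `eventuallyMeasurableSpace (F s) (ae P)` is a.e. equal to an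
`F s`-measurable one, sets likewise; so the defining integral identities of the conditional
expectation are the same. -/
def S_CPL : Prop := ∀ (Ω : Type) [mΩ : MeasurableSpace Ω] (P : Measure Ω) [IsProbabilityMeasure P]
  (G : Filtration ℝ≥0 mΩ) (Y : ℝ≥0 → Ω → ℝ), Martingale Y G P →
  ∀ (m' : MeasurableSpace Ω) (hm' : m' = eventuallyMeasurableSpace mΩ (ae P))
    (P' : @Measure Ω m') (_ : ∀ s, P' s = P s)
    (G' : @Filtration Ω ℝ≥0 _ m') (_ : ∀ t, G' t = eventuallyMeasurableSpace (G t) (ae P))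
    (Y' : ℝ≥0 → Ω → ℝ), (∀ t, Y' t =ᵐ[P] Y t) → Martingale (m0 := m') Y' G' P'

end H481.RG
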